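import Pool.Agent.helper74.FD.SpecG

set_option autoImplicit false

open scoped MatrixGroups ContDiff Topology UpperHalfPlane ComplexConjugate
open UpperHalfPlane MeasureTheory Filter Set

namespace Pool.Agent.FD

open Pool.Agent.RS Pool.Agent.MS
open Pool.Agent.EN (XG MG mkX mkM fl pr)

theorem DES_lk (v : ℝ) : lM v * kM (Real.pi / 2) = kM (Real.pi / 2) * nM (-v) := by
  apply Subtype.ext
  rw [Matrix.SpecialLinearGroup.coe_mul, Matrix.SpecialLinearGroup.coe_mul]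
  ext i j
  fin_cases i <;> fin_cases j <;>
    simp [lM, nM, kM, Matrix.mul_apply, Fin.sum_univ_two, Real.cos_pi_div_two, Real.sin_pi_div_two]

theorem DES_proof (hDEN : DEN_stmt) (hGLC : RS.GLC_stmt) : DES_stmt := by
  obtain ⟨_, _, _, _, _, _, _, _, _, _, haa, hnn, _, _, _, _, _, _, _, hka⟩ := hGLC
  intro Γ W hΓ hW hne hI
  obtain ⟨T0, c, hT, hc, hc4, h⟩ := hDEN Γ {x | x * kM (Real.pi / 2) ∈ W} hΓ
    (hW.preimage (continuous_id.mul continuous_const)) (by
      obtain ⟨x, hx⟩ := hne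
      refine ⟨x * (kM (Real.pi / 2))⁻¹, ?_⟩
      change x * (kM (Real.pi / 2))⁻¹ * kM (Real.pi / 2) ∈ W
      rw [inv_mul_cancel_right]
      exact hx) (by
      refine ⟨fun γ g => ?_, fun g => ?_⟩
      · change (γ : SL(2, ℝ)) * g * kM (Real.pi / 2) ∈ W ↔ g * kM (Real.pi / 2) ∈ W
        rw [mul_assoc]
        exact hI.1 γ _
      · change -g * kM (Real.pi / 2) ∈ W ↔ g * kM (Real.pi / 2) ∈ W
        rw [neg_mul]
        exact hI.2 _)
  refine ⟨T0, c, hT, hc, hc4, fun g => ?_⟩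
  obtain ⟨t, v0, ht0, ht1, hv0, hv1, hv⟩ := h (g * nM 1 * (kM (Real.pi / 2))⁻¹)
  refine ⟨t, 1 - v0, ht0, ht1, by linarith, by linarith, fun v hvv => ?_⟩
  have h1 := hv (1 - v) (by
    have e : 1 - v - v0 = -(v - (1 - v0)) := by ring
    rw [e, abs_neg]
    exact hvv)
  have h2 : g * nM 1 * (kM (Real.pi / 2))⁻¹ * lM (1 - v) * aM t * kM (Real.pi / 2) ∈ W := h1
  have e1 : aM t * kM (Real.pi / 2) = kM (Real.pi / 2) * aM (-t) := by
    have := hka (-t)
    rw [neg_neg] at this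
    exact this.symm
  have e2 : g * nM 1 * (kM (Real.pi / 2))⁻¹ * lM (1 - v) * aM t * kM (Real.pi / 2) = g * nM v * aM (-t) := by
    rw [mul_assoc _ (aM t), e1, ← mul_assoc, mul_assoc _ (lM (1 - v)), DES_lk, ← mul_assoc, inv_mul_cancel_right, mul_assoc g, ← hnn]
    congr 3
    ring
  rw [e2] at h2
  exact h2

end Pool.Agent.FD
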